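import Pool.Agent.Helper47.ER.Goals
import Pool.Agent.Helper4.EP.BRH

/-!
Packet ER-BRH2 (helper15): the Brauer homomorphism, after Pool/Agent/Helper4/EP/BRH.lean.
-/

set_option autoImplicit false

namespace Pool.Agent.Helper15.ER.BRH2

open MonoidAlgebra Pool.Agent.Helper17.PF Pool.Agent.Helper47.EP Pool.Agent.Helper4.EP.BRH

theorem t : Pool.Agent.Helper47.ER.S_BRH2 := by
  classical
  intro p _ F _ _ L _ _ σ k hσ x y hx hy
  have : Fintype L := Fintype.ofFinite L
  let s : MulAut L := σ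
  have hpow : ∀ (n : ℕ) (g : L), (s ^ n) g = σ^[n] g := by
    intro n
    induction n with
    | zero => intro g; rfl
    | succ n ih =>
      intro g
      rw [pow_succ, MulAut.mul_apply, ih, Function.iterate_succ_apply]
  have hsp : s ^ p ^ k = 1 := by
    ext g
    rw [hpow, hσ]
    rfl
  have hA : IsPGroup p (Subgroup.zpowers s) := by
    rintro ⟨a, n, rfl⟩
    refine ⟨k, Subtype.ext ?_⟩
    show (s ^ n) ^ (p ^ k) = 1
    rw [← zpow_natCast, ← zpow_mul, mul_comm, zpow_mul, zpow_natCast, hsp, one_zpow]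
  have hfix : ∀ g : L, g ∈ (Finset.univ.filter fun g => σ g = g) ↔
      ∀ a : Subgroup.zpowers s, a • g = g := by
    intro g
    rw [Finset.mem_filter]
    constructor
    · rintro ⟨-, hg⟩ ⟨a, ha⟩
      have h1 : s ∈ MulAction.stabilizer (MulAut L) g := hg
      have h2 : Subgroup.zpowers s ≤ MulAction.stabilizer (MulAut L) g :=
        Subgroup.zpowers_le.mpr h1
      exact h2 ha
    · intro h
      exact ⟨Finset.mem_univ _, h ⟨s, Subgroup.mem_zpowers s⟩⟩
  have hinv : ∀ f : L → F, (∀ g, f (σ g) = f g) → ∀ (a : Subgroup.zpowers s) (g : L),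
      f (a • g) = f g := by
    rintro f hf ⟨a, ha⟩ g
    let K : Subgroup (MulAut L) :=
      { carrier := {b | ∀ g, f (b g) = f g}
        mul_mem' := fun {b c} hb hc g => by
          show f (b (c g)) = f g
          rw [hb, hc]
        one_mem' := fun g => rfl
        inv_mem' := fun {b} hb g => by
          have h1 := hb (b⁻¹ g)
          rw [MulAut.apply_inv_self] at h1
          exact h1.symm }
    have h1 : s ∈ K := hf
    have h2 : Subgroup.zpowers s ≤ K := Subgroup.zpowers_le.mpr h1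
    exact h2 ha g
  refine MonoidAlgebra.ext (Finsupp.ext fun h => ?_)
  rw [rs_coeff, coeff_mul_sum (rs _ x)]
  have hR : ∀ g, (rs {g | σ g = g} x).coeff g * (rs {g | σ g = g} y).coeff (g⁻¹ * h) =
      if σ g = g ∧ σ (g⁻¹ * h) = g⁻¹ * h then x.coeff g * y.coeff (g⁻¹ * h) else 0 := by
    intro g
    rw [rs_coeff, rs_coeff]
    simp only [Set.mem_ofPred_eq]
    by_cases h1 : σ g = g <;> by_cases h2 : σ (g⁻¹ * h) = g⁻¹ * h <;> simp [h1, h2]
  rw [Finset.sum_congr rfl fun g _ => hR g]
  by_cases hh : σ h = h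
  · have h1 : h ∈ {g | σ g = g} := hh
    rw [if_pos h1, coeff_mul_sum]
    rw [sum_fixed (F := F) hA (fun g => x.coeff g * y.coeff (g⁻¹ * h)) (hinv (fun g => x.coeff g * y.coeff (g⁻¹ * h)) fun g => by
      show x.coeff (σ g) * y.coeff ((σ g)⁻¹ * h) = x.coeff g * y.coeff (g⁻¹ * h)
      rw [hx g]
      congr 1
      have h2 : (σ g)⁻¹ * h = σ (g⁻¹ * h) := by rw [map_mul, map_inv, hh]
      rw [h2, hy]) _ hfix]
    rw [Finset.sum_filter]
    refine Finset.sum_congr rfl fun g _ => ?_
    by_cases hg : σ g = g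
    · rw [if_pos hg, if_pos ⟨hg, by rw [map_mul, map_inv, hg, hh]⟩]
    · rw [if_neg hg, if_neg fun h => hg h.1]
  · have h1 : h ∉ {g | σ g = g} := hh
    rw [if_neg h1]
    symm
    refine Finset.sum_eq_zero fun g _ => if_neg ?_
    rintro ⟨hg, h2⟩
    apply hh
    have h3 : h = g * (g⁻¹ * h) := by group
    rw [h3, map_mul, hg, h2]

end Pool.Agent.Helper15.ER.BRH2
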